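import Pool.Agent.Work.MP_abe657_gt.Main2
import Pool.Agent.Work.MP_abe657_gt.SurfDefs2

set_option autoImplicit false

namespace Pool.Agent.Results.MP_abe657_gt.AlgebraicSurfaces

open Pool.Agent.Work.MP_abe657_gt
open scoped Manifold ContDiff

/-- Chen's conjecture for compact finite type surfaces contained in an algebraic surface. -/
theorem result {M : Type*} [TopologicalSpace M] [ChartedSpace E2 M]
    [IsManifold (𝓡 2) ∞ M] [CompactSpace M] [ConnectedSpace M] (x : M → E3)
    (hx : SmoothMap x) (himm : Immersed x) (hft : FiniteType x)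
    (G : MvPolynomial (Fin 3) ℝ) (hG : G ≠ 0)
    (hz : ∀ p, MvPolynomial.eval (fun a => x p a) G = 0) :
    ∃ (c : E3) (r : ℝ), 0 < r ∧ Set.range x = Metric.sphere c r := by
  refine finite_type_algebraic2 x hx (immersed_mfderiv x hx himm) hft
    (MvPolynomial.map (algebraMap ℝ ℂ) G) ?_ ?_
  · intro h
    apply hG
    apply MvPolynomial.map_injective _ (algebraMap ℝ ℂ).injective
    rw [h, map_zero]
  · intro p
    have h := congrArg (algebraMap ℝ ℂ) (hz p)
    rw [map_zero] at h
    rw [← h, MvPolynomial.aeval_def, MvPolynomial.eval₂_map, MvPolynomial.eval,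
      MvPolynomial.coe_eval₂Hom, MvPolynomial.eval₂_comp_left]
    rfl

end Pool.Agent.Results.MP_abe657_gt.AlgebraicSurfaces
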