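import Pool.Agent.Work.MP_abe657_gt.CM.GloC

/-!
# MP_abe657_gt: surfaces of finite type with constant mean curvature
-/

set_option autoImplicit false

namespace Pool.Agent.Results.MP_abe657_gt.ConstantMeanCurvature

open Pool.Agent.Work.MP_abe657_gt Pool.Agent.Work.MP_abe657_gt.CM
open scoped Manifold ContDiff

/-- Let `M` be a connected surface, immersed in Euclidean 3-space by a map `x` of finite type, and with
constant mean curvature: the length of `Δ x` (twice the absolute value of the mean curvature) is constant,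
`|Δ x|² = h`. If `M` is compact, then `x(M)` is a round sphere. In general (`M` not necessarily compact), if `h ≠ 0`
then `Δ (Δ x) = κ Δ x` with a constant `κ = h / 2` or `κ = h`. -/
theorem result {M : Type*} [TopologicalSpace M] [ChartedSpace E2 M] [IsManifold (𝓡 2) ∞ M]
    [ConnectedSpace M] (x : M → E3) (hx : SmoothMap x) (hi : Immersed x) (hft : FiniteType x)
    (h : ℝ) (hc : ∀ e ∈ atlas E2 M, ∀ u ∈ e.target,
      ∑ a : Fin 3, lap (x ∘ e.symm) (fun w => x (e.symm w) a) u ^ 2 = h) :
    (CompactSpace M → ∃ (c : E3) (r : ℝ), 0 < r ∧ Set.range x = Metric.sphere c r) ∧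
    (h ≠ 0 → ∃ κ : ℝ, (κ = h / 2 ∨ κ = h) ∧ ∀ e ∈ atlas E2 M, ∀ u ∈ e.target, ∀ a : Fin 3,
      lap (x ∘ e.symm) (lap (x ∘ e.symm) (fun w => x (e.symm w) a)) u
        = κ * lap (x ∘ e.symm) (fun w => x (e.symm w) a) u) :=
  ⟨fun hM => by haveI := hM; exact cmc_compact x hx hi hft h hc,
    fun hh => cmc_local x hx hi hft h hh hc⟩

end Pool.Agent.Results.MP_abe657_gt.ConstantMeanCurvature
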