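import Pool.Agent.Work.MP_abe657_gt.Rev.RevMain
import Pool.Agent.Work.MP_abe657_gt.SurfDefs2

set_option autoImplicit false

namespace Pool.Agent.Results.MP_abe657_gt.RevolutionSurfaces

open Pool.Agent.Work.MP_abe657_gt Pool.Agent.Work.MP_abe657_gt.Rev
open scoped Manifold ContDiff

/-- Chen's conjecture for compact finite type surfaces of revolution. -/
theorem result {M : Type*} [TopologicalSpace M] [ChartedSpace E2 M]
    [IsManifold (𝓡 2) ∞ M] [CompactSpace M] [ConnectedSpace M] (x : M → E3)
    (hx : SmoothMap x) (himm : Immersed x) (hft : FiniteType x) (hrev : IsRevolution x) :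
    ∃ (c : E3) (r : ℝ), 0 < r ∧ Set.range x = Metric.sphere c r :=
  finite_type_revolution x hx (immersed_mfderiv x hx himm) hft hrev

end Pool.Agent.Results.MP_abe657_gt.RevolutionSurfaces
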