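import Pool.Agent.Work.MP_abe657_gt.T2.TwoMain

/-!
# MP_abe657_gt: surfaces of 2-type in Euclidean 3-space
-/

set_option autoImplicit false

namespace Pool.Agent.Results.MP_abe657_gt.TwoType

open Pool.Agent.Work.MP_abe657_gt Pool.Agent.Work.MP_abe657_gt.T2
open scoped Manifold ContDiff

/-- A connected surface in Euclidean 3-space which is compact, or whose eigenvalues are not zero, is
never of 2-type: if `x = c + y1 + y2` with `y1, y2` smooth and not constant, `Δ y1 = l1 y1`,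
`Δ y2 = l2 y2`, and if `M` is compact or `l1, l2 ≠ 0`, then `l1 = l2` and the surface lies on a sphere
with centre `c` (and its image is the whole sphere when `M` is compact). -/
theorem result {M : Type*} [TopologicalSpace M] [ChartedSpace E2 M] [IsManifold (𝓡 2) ∞ M]
    [ConnectedSpace M] (x : M → E3) (hx : SmoothMap x) (hi : Immersed x) (c : E3)
    (y1 y2 : M → E3) (l1 l2 : ℝ) (h : TwoEigen x c y1 y2 l1 l2)
    (hy1 : ¬ ∃ v, ∀ m, y1 m = v) (hy2 : ¬ ∃ v, ∀ m, y2 m = v)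
    (h0 : CompactSpace M ∨ (l1 ≠ 0 ∧ l2 ≠ 0)) :
    l1 = l2 ∧ ∃ r : ℝ, 0 < r ∧ (∀ m, ‖x m - c‖ = r) ∧
      (CompactSpace M → Set.range x = Metric.sphere c r) := by
  obtain ⟨-, t2, t3⟩ := two_type x hx hi c
  by_cases hc : CompactSpace M
  · obtain ⟨hl, r, hr, hs⟩ := t3 hc y1 y2 l1 l2 h hy1 hy2
    refine ⟨hl, r, hr, fun m => ?_, fun _ => hs⟩
    have hm : x m ∈ Metric.sphere c r := by rw [← hs]; exact ⟨m, rfl⟩
    rwa [mem_sphere_iff_norm] at hm
  · obtain ⟨h1, h2⟩ := h0.resolve_left hc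
    obtain ⟨⟨r, hr, hs⟩, hd⟩ := t2 y1 y2 l1 l2 h h1 h2
    refine ⟨?_, r, hr, hs, fun hc' => absurd hc' hc⟩
    by_contra hne
    rcases hd hne with h3 | h3
    · exact hy1 ⟨0, h3⟩
    · exact hy2 ⟨0, h3⟩

end Pool.Agent.Results.MP_abe657_gt.TwoType
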